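import Pool.Agent.N696.LI.Stm

/-! Project LI (helper696), part OPEN: the orbit map is open at `0` if its derivative is
surjective (by helper692). -/

set_option autoImplicit false

namespace Pool.Agent.N692.LI

open Topology Filter Pool.Agent.N696.LI

section
attribute [local instance] Matrix.linftyOpNormedRing Matrix.linftyOpNormedAlgebra

theorem s_open : S_open := by
  intro m F _ _ _ D e hs U hU
  have hF : CompleteSpace F := FiniteDimensional.complete ℝ F
  let Dc : F →L[ℝ] Mat m := LinearMap.toContinuousLinearMap D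
  let L₀ : Mat m →ₗ[ℝ] (Fin m → ℝ) :=
    { toFun := fun M => M.mulVec e
      map_add' := fun M N => Matrix.add_mulVec M N e
      map_smul' := fun c M => Matrix.smul_mulVec c M e }
  let L : Mat m →L[ℝ] (Fin m → ℝ) := LinearMap.toContinuousLinearMap L₀
  have h0 : Dc 0 = 0 := map_zero Dc
  have h1 : HasStrictFDerivAt (NormedSpace.exp : Mat m → Mat m) (1 : Mat m →L[ℝ] Mat m) (Dc 0) := by
    rw [h0]
    exact hasStrictFDerivAt_exp_zero
  have h2 : HasStrictFDerivAt (fun X => L (NormedSpace.exp (Dc X)))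
      (L.comp ((1 : Mat m →L[ℝ] Mat m).comp Dc)) 0 :=
    L.hasStrictFDerivAt.comp 0 (h1.comp 0 Dc.hasStrictFDerivAt)
  have h3 : (L.comp ((1 : Mat m →L[ℝ] Mat m).comp Dc)).range = ⊤ := by
    rw [LinearMap.range_eq_top]
    intro y
    obtain ⟨X, hX⟩ := hs y
    exact ⟨X, hX.symm⟩
  have h4 := h2.map_nhds_eq_of_surj h3
  have h5 : L (NormedSpace.exp (Dc 0)) = e := by
    rw [h0, NormedSpace.exp_zero]
    exact Matrix.one_mulVec e
  rw [h5] at h4
  rw [← h4]
  refine mem_map.2 (mem_of_superset hU ?_)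
  intro X hX
  exact ⟨X, hX, rfl⟩

end

end Pool.Agent.N692.LI
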